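import Pool.Agent.U180.NG.Stm2

set_option autoImplicit false

/-! Project NG, package LUNE: the number of lattice points in a lune. -/

namespace Pool.Agent.U402.NG

open Filter Topology Pool.Agent.U180.NG

lemma toNat_cast (a b : ℤ) : (((b - a).toNat : ℕ) : ℝ) = max 0 ((b : ℝ) - a) := by
  have h : (((b - a).toNat : ℤ) : ℝ) = max 0 ((b : ℝ) - a) := by
    rw [Int.toNat_eq_max]
    push_cast
    rw [max_comm]
  exact_mod_cast h

lemma hl_sq {R y : ℝ} {m : ℤ} (h : |(m : ℝ) + y| ≤ R) : hl R y m ^ 2 = R ^ 2 - (m + y) ^ 2 := by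
  unfold hl
  rw [Real.sq_sqrt]
  have h1 := sq_le_sq' (abs_le.mp h).1 (abs_le.mp h).2
  linarith

lemma mem_disc_iff {R : ℝ} {x : ℝ × ℝ} {n m : ℤ} (h : |(m : ℝ) + x.2| ≤ R) :
    x ∈ disc R (n, m) ↔ |(n : ℝ) + x.1| ≤ hl R x.2 m := by
  have h1 := hl_sq h
  have h2 : 0 ≤ hl R x.2 m := Real.sqrt_nonneg _
  rw [← sq_le_sq₀ (abs_nonneg _) h2, sq_abs, h1]
  unfold disc
  constructor
  · intro h3
    have h4 : ((n : ℝ) + x.1) ^ 2 + ((m : ℝ) + x.2) ^ 2 ≤ R ^ 2 := h3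
    linarith
  · intro h3
    show ((n : ℝ) + x.1) ^ 2 + ((m : ℝ) + x.2) ^ 2 ≤ R ^ 2
    linarith

/-- the points of a good row of the lune -/
noncomputable def gd (R : ℝ) (x x' : ℝ × ℝ) (m : ℤ) : Finset ℤ :=
  Finset.Ioc ⌊hl R x'.2 m + -x'.1⌋ ⌊hl R x.2 m + -x.1⌋ ∪
    Finset.Ico (-⌊hl R x.2 m + x.1⌋) (-⌊hl R x'.2 m + x'.1⌋)

lemma row_eq {R : ℝ} {x x' : ℝ × ℝ} {m : ℤ} (h : |(m : ℝ) + x.2| ≤ R) (h' : |(m : ℝ) + x'.2| ≤ R)
    (hb : |x.1| + |x'.1| ≤ hl R x.2 m) (n : ℤ) :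
    (n, m) ∈ lune R x x' ↔ n ∈ gd R x x' m := by
  have h0 : 0 ≤ hl R x'.2 m := Real.sqrt_nonneg _
  have e1 : (n, m) ∈ lune R x x' ↔ |(n : ℝ) + x.1| ≤ hl R x.2 m ∧
      ¬ |(n : ℝ) + x'.1| ≤ hl R x'.2 m := by
    rw [← mem_disc_iff h, ← mem_disc_iff h']
    rfl
  have f1 : -⌊hl R x.2 m + x.1⌋ ≤ n ↔ ((-n : ℤ) : ℝ) ≤ hl R x.2 m + x.1 := by
    rw [← Int.le_floor]
    constructor <;> intro h <;> linarith
  have f2 : n < -⌊hl R x'.2 m + x'.1⌋ ↔ hl R x'.2 m + x'.1 < ((-n : ℤ) : ℝ) := by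
    rw [← Int.floor_lt]
    constructor <;> intro h <;> linarith
  rw [e1, gd, Finset.mem_union, Finset.mem_Ioc, Finset.mem_Ico, Int.floor_lt, Int.le_floor, f1, f2,
    abs_le, abs_le]
  push_cast
  have a1 := neg_abs_le x.1
  have a2 := le_abs_self x.1
  have a3 := neg_abs_le x'.1
  have a4 := le_abs_self x'.1
  constructor
  · rintro ⟨⟨h1, h2⟩, h3⟩
    by_cases h4 : (n : ℝ) + x'.1 ≤ hl R x'.2 m
    · right
      have h5 : ¬ (-hl R x'.2 m ≤ (n : ℝ) + x'.1) := fun h6 => h3 ⟨h6, h4⟩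
      rw [not_le] at h5
      constructor <;> linarith
    · left
      rw [not_le] at h4
      constructor <;> linarith
  · rintro (⟨h1, h2⟩ | ⟨h1, h2⟩)
    · refine ⟨⟨?_, ?_⟩, ?_⟩
      · linarith
      · linarith
      · rintro ⟨h3, h4⟩
        linarith
    · refine ⟨⟨?_, ?_⟩, ?_⟩
      · linarith
      · linarith
      · rintro ⟨h3, h4⟩
        linarith

lemma card_gd (R : ℝ) (x x' : ℝ × ℝ) (m : ℤ) : ((gd R x x' m).card : ℝ) =
    max 0 ((⌊hl R x.2 m + -x.1⌋ : ℝ) - ⌊hl R x'.2 m + -x'.1⌋) +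
      max 0 ((⌊hl R x.2 m + x.1⌋ : ℝ) - ⌊hl R x'.2 m + x'.1⌋) := by
  have h0 : 0 ≤ hl R x'.2 m := Real.sqrt_nonneg _
  unfold gd
  rw [Finset.card_union_of_disjoint]
  · rw [Int.card_Ioc, Int.card_Ico, Nat.cast_add, toNat_cast,
      show -⌊hl R x'.2 m + x'.1⌋ - -⌊hl R x.2 m + x.1⌋ =
        ⌊hl R x.2 m + x.1⌋ - ⌊hl R x'.2 m + x'.1⌋ by ring, toNat_cast]
  · rw [Finset.disjoint_left]
    intro n h1 h2
    rw [Finset.mem_Ioc, Int.floor_lt] at h1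
    rw [Finset.mem_Ico] at h2
    have h3 : ⌊hl R x'.2 m + x'.1⌋ < -n := by linarith [h2.2]
    rw [Int.floor_lt] at h3
    push_cast at h3
    linarith [h1.1]

lemma card_biU (M1 M2 : ℤ) (g : ℤ → Finset ℤ) :
    ((Finset.Icc M1 M2).biUnion fun m => (g m).image fun n => ((n, m) : ℤ × ℤ)).card =
      ∑ m ∈ Finset.Icc M1 M2, (g m).card := by
  rw [Finset.card_biUnion]
  · refine Finset.sum_congr rfl fun m _ => Finset.card_image_of_injective _ ?_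
    intro a b h
    simpa using h
  · intro m _ m' _ hne
    rw [Function.onFun, Finset.disjoint_left]
    intro z hz hz'
    simp only [Finset.mem_image] at hz hz'
    obtain ⟨n, _, rfl⟩ := hz
    obtain ⟨n', _, h⟩ := hz'
    exact hne (by simpa using (congrArg Prod.snd h).symm)

lemma card_Icc_le (α β : ℝ) (h : α ≤ β) : ((Finset.Icc ⌈α⌉ ⌊β⌋).card : ℝ) ≤ β - α + 1 := by
  rw [Int.card_Icc]
  have h1 : (((⌊β⌋ + 1 - ⌈α⌉).toNat : ℤ) : ℝ) ≤ β - α + 1 := by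
    rw [Int.toNat_eq_max]
    push_cast
    have h2 := Int.floor_le β
    have h3 := Int.le_ceil α
    exact max_le (by linarith) (by linarith)
  exact_mod_cast h1

/-- a box which contains the bad rows -/
noncomputable def bdF (R a y K : ℝ) : Finset (ℤ × ℤ) :=
  Finset.Icc ⌈-Real.sqrt (2 * R * (K + |y|)) - a⌉ ⌊Real.sqrt (2 * R * (K + |y|)) - a⌋ ×ˢ
    (Finset.Icc ⌈-R - |y|⌉ ⌊-R + K⌋ ∪ Finset.Icc ⌈R - K⌉ ⌊R + |y|⌋)

lemma bad_sub {R a y K : ℝ} (hR : 0 ≤ R) {z : ℤ × ℤ}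
    (hz : ((z.1 : ℝ) + a) ^ 2 + ((z.2 : ℝ) + y) ^ 2 ≤ R ^ 2)
    (hb : ¬ (⌈-R + K⌉ ≤ z.2 ∧ z.2 ≤ ⌊R - K⌋)) : z ∈ bdF R a y K := by
  have hv : |(z.2 : ℝ) + y| ≤ R := by
    refine abs_le_of_sq_le_sq ?_ hR
    nlinarith [sq_nonneg ((z.1 : ℝ) + a)]
  have hv2 := abs_le.mp hv
  have y1 := neg_abs_le y
  have y2 := le_abs_self y
  have hcase : (z.2 : ℝ) < -R + K ∨ R - K < (z.2 : ℝ) := by
    by_cases h1 : ⌈-R + K⌉ ≤ z.2
    · right
      have h2 : ¬ z.2 ≤ ⌊R - K⌋ := fun h3 => hb ⟨h1, h3⟩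
      rw [not_le] at h2
      exact Int.floor_lt.mp h2
    · left
      rw [not_le] at h1
      exact Int.lt_ceil.mp h1
  have hg : R - |(z.2 : ℝ) + y| ≤ K + |y| := by
    rcases hcase with h1 | h1
    · have := neg_abs_le ((z.2 : ℝ) + y)
      linarith
    · have := le_abs_self ((z.2 : ℝ) + y)
      linarith
  have hs : ((z.1 : ℝ) + a) ^ 2 ≤ 2 * R * (K + |y|) := by
    have h1 : ((z.1 : ℝ) + a) ^ 2 ≤ (R - |(z.2 : ℝ) + y|) * (R + |(z.2 : ℝ) + y|) := by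
      have h2 : |(z.2 : ℝ) + y| ^ 2 = ((z.2 : ℝ) + y) ^ 2 := sq_abs _
      nlinarith
    have h3 : 0 ≤ R - |(z.2 : ℝ) + y| := by linarith
    have h4 : 0 ≤ |(z.2 : ℝ) + y| := abs_nonneg _
    calc ((z.1 : ℝ) + a) ^ 2 ≤ (R - |(z.2 : ℝ) + y|) * (R + |(z.2 : ℝ) + y|) := h1
      _ ≤ (K + |y|) * (2 * R) :=
          mul_le_mul hg (by linarith) (by linarith) (by linarith)
      _ = 2 * R * (K + |y|) := by ring
  have ha := abs_le.mp (Real.abs_le_sqrt hs)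
  unfold bdF
  rw [Finset.mem_product, Finset.mem_union, Finset.mem_Icc, Finset.mem_Icc, Finset.mem_Icc,
    Int.ceil_le, Int.le_floor, Int.ceil_le, Int.le_floor, Int.ceil_le, Int.le_floor]
  refine ⟨⟨by linarith [ha.1], by linarith [ha.2]⟩, ?_⟩
  rcases hcase with h1 | h1
  · left
    exact ⟨by linarith, by linarith⟩
  · right
    exact ⟨by linarith, by linarith⟩

lemma bdF_card (R a y K : ℝ) (hK : 0 ≤ K) :
    ((bdF R a y K).card : ℝ) ≤ (2 * Real.sqrt (2 * R * (K + |y|)) + 1) * (2 * (K + |y| + 1)) := by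
  have y0 := abs_nonneg y
  have s0 := Real.sqrt_nonneg (2 * R * (K + |y|))
  unfold bdF
  rw [Finset.card_product, Nat.cast_mul]
  refine mul_le_mul ?_ ?_ (Nat.cast_nonneg _) (by linarith)
  · have := card_Icc_le (-Real.sqrt (2 * R * (K + |y|)) - a) (Real.sqrt (2 * R * (K + |y|)) - a)
      (by linarith)
    linarith
  · have h1 := card_Icc_le (-R - |y|) (-R + K) (by linarith)
    have h2 := card_Icc_le (R - K) (R + |y|) (by linarith)
    have h3 : (((Finset.Icc ⌈-R - |y|⌉ ⌊-R + K⌋ ∪ Finset.Icc ⌈R - K⌉ ⌊R + |y|⌋).card : ℕ) : ℝ) ≤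
        ((Finset.Icc ⌈-R - |y|⌉ ⌊-R + K⌋).card : ℝ) + ((Finset.Icc ⌈R - K⌉ ⌊R + |y|⌋).card : ℝ) := by
      exact_mod_cast Finset.card_union_le _ _
    linarith

lemma count_lune (x x' : ℝ × ℝ) (R K : ℝ) (hR : 1 ≤ R) (hKd : K = 2 * (|x.2| + |x'.2| + 1))
    (hRa : |x.1| + |x'.1| ≤ Real.sqrt R) :
    |((lune R x x').ncard : ℝ) - ∑ m ∈ Finset.Icc ⌈-R + K⌉ ⌊R - K⌋, ((gd R x x' m).card : ℝ)| ≤
      (2 * Real.sqrt (2 * (K + |x.2|)) + 1) * (2 * (K + |x.2| + 1)) * Real.sqrt R := by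
  have y0 := abs_nonneg x.2
  have y0' := abs_nonneg x'.2
  have hK0 : 0 ≤ K := by rw [hKd]; positivity
  have hsR : 1 ≤ Real.sqrt R := Real.one_le_sqrt.mpr hR
  set M1 := ⌈-R + K⌉ with hM1
  set M2 := ⌊R - K⌋ with hM2
  -- the good rows
  have hgood : ∀ m ∈ Finset.Icc M1 M2, |(m : ℝ) + x.2| ≤ R ∧ |(m : ℝ) + x'.2| ≤ R ∧
      |x.1| + |x'.1| ≤ hl R x.2 m := by
    intro m hm
    rw [Finset.mem_Icc, hM1, hM2, Int.ceil_le, Int.le_floor] at hm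
    have y1 := neg_abs_le x.2
    have y2 := le_abs_self x.2
    have y1' := neg_abs_le x'.2
    have y2' := le_abs_self x'.2
    have hv : |(m : ℝ) + x.2| ≤ R - 2 := by
      rw [abs_le]; constructor <;> linarith [hm.1, hm.2]
    have hv' : |(m : ℝ) + x'.2| ≤ R - 2 := by
      rw [abs_le]; constructor <;> linarith [hm.1, hm.2]
    refine ⟨by linarith, by linarith, hRa.trans ?_⟩
    unfold hl
    refine Real.sqrt_le_sqrt ?_
    have h1 : ((m : ℝ) + x.2) ^ 2 ≤ (R - 2) ^ 2 := by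
      rw [← sq_abs ((m : ℝ) + x.2)]
      exact pow_le_pow_left₀ (abs_nonneg _) hv 2
    have h2 : 2 ≤ R := by linarith [abs_nonneg ((m : ℝ) + x.2)]
    nlinarith
  set Gd := (Finset.Icc M1 M2).biUnion fun m => (gd R x x' m).image fun n => ((n, m) : ℤ × ℤ)
    with hGd
  set bad := {z : ℤ × ℤ | z ∈ lune R x x' ∧ ¬ (M1 ≤ z.2 ∧ z.2 ≤ M2)} with hbad
  have hbs : bad ⊆ ↑(bdF R x.1 x.2 K) := by
    rintro z ⟨hz1, hz2⟩
    exact bad_sub (by linarith) hz1.1 hz2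
  have hbf : bad.Finite := (Finset.finite_toSet _).subset hbs
  have hbc : (bad.ncard : ℝ) ≤ (bdF R x.1 x.2 K).card := by
    have := Set.ncard_le_ncard hbs (Finset.finite_toSet _)
    rw [Set.ncard_coe_finset] at this
    exact_mod_cast this
  have hun : lune R x x' = ↑Gd ∪ bad := by
    ext z
    constructor
    · intro hz
      by_cases h : M1 ≤ z.2 ∧ z.2 ≤ M2
      · left
        have hm : z.2 ∈ Finset.Icc M1 M2 := Finset.mem_Icc.mpr h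
        obtain ⟨g1, g2, g3⟩ := hgood z.2 hm
        rw [hGd, Finset.mem_coe, Finset.mem_biUnion]
        refine ⟨z.2, hm, Finset.mem_image.mpr ⟨z.1, ?_, rfl⟩⟩
        exact (row_eq g1 g2 g3 z.1).mp hz
      · right
        exact ⟨hz, h⟩
    · rintro (hz | hz)
      · rw [hGd, Finset.mem_coe, Finset.mem_biUnion] at hz
        obtain ⟨m, hm, hz⟩ := hz
        obtain ⟨n, hn, rfl⟩ := Finset.mem_image.mp hz
        obtain ⟨g1, g2, g3⟩ := hgood m hm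
        exact (row_eq g1 g2 g3 n).mpr hn
      · exact hz.1
  have hdis : Disjoint (↑Gd : Set (ℤ × ℤ)) bad := by
    rw [Set.disjoint_left]
    intro z hz hz2
    rw [hGd, Finset.mem_coe, Finset.mem_biUnion] at hz
    obtain ⟨m, hm, hz⟩ := hz
    obtain ⟨n, hn, rfl⟩ := Finset.mem_image.mp hz
    exact hz2.2 (Finset.mem_Icc.mp hm)
  have hcard : (lune R x x').ncard = Gd.card + bad.ncard := by
    rw [hun, Set.ncard_union_eq hdis (Finset.finite_toSet _) hbf, Set.ncard_coe_finset]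
  have hGc : (Gd.card : ℝ) = ∑ m ∈ Finset.Icc M1 M2, ((gd R x x' m).card : ℝ) := by
    rw [hGd, card_biU]
    push_cast
    rfl
  rw [hcard, Nat.cast_add, hGc, add_sub_cancel_left, abs_of_nonneg (Nat.cast_nonneg _)]
  refine hbc.trans ((bdF_card R x.1 x.2 K hK0).trans ?_)
  have e1 : Real.sqrt (2 * R * (K + |x.2|)) = Real.sqrt (2 * (K + |x.2|)) * Real.sqrt R := by
    rw [← Real.sqrt_mul (by positivity)]
    congr 1; ring
  rw [e1]
  have h5 : 0 ≤ Real.sqrt (2 * (K + |x.2|)) := Real.sqrt_nonneg _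
  have h6 : 0 ≤ 2 * (K + |x.2| + 1) := by positivity
  calc (2 * (Real.sqrt (2 * (K + |x.2|)) * Real.sqrt R) + 1) * (2 * (K + |x.2| + 1))
      ≤ ((2 * Real.sqrt (2 * (K + |x.2|)) + 1) * Real.sqrt R) * (2 * (K + |x.2| + 1)) := by
        refine mul_le_mul_of_nonneg_right ?_ h6
        nlinarith
    _ = _ := by ring

theorem t_LUNE (h1 : S_LFL) (h2 : S_LDC) (h3 : S_LINT) : S_LUNE := by
  intro x x'
  obtain ⟨C, hC⟩ := h1 x.2 x'.2 (-x.1) (-x'.1)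
  obtain ⟨C', hC'⟩ := h1 x.2 x'.2 x.1 x'.1
  have hL := h2 x.2 x'.2 (-(x.1 - x'.1))
  have hL' := h2 x.2 x'.2 (x.1 - x'.1)
  have hI := h3 (-(x.1 - x'.1)) (x.2 - x'.2)
  rw [neg_neg, neg_sq] at hI
  set K := 2 * (|x.2| + |x'.2| + 1) with hK
  have y0 := abs_nonneg x.2
  have y0' := abs_nonneg x'.2
  set C2 := (2 * Real.sqrt (2 * (K + |x.2|)) + 1) * (2 * (K + |x.2| + 1)) with hC2
  have hC20 : 0 ≤ C2 := by positivity
  have hsum := hL.add hL'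
  rw [hI] at hsum
  -- the difference tends to zero
  have hdiff : Tendsto (fun R : ℝ => ((lune R x x').ncard : ℝ) / R -
      ((∑ m ∈ Finset.Icc ⌈-R + K⌉ ⌊R - K⌋, max 0 (hl R x.2 m - hl R x'.2 m + -(x.1 - x'.1))) / R +
      (∑ m ∈ Finset.Icc ⌈-R + K⌉ ⌊R - K⌋, max 0 (hl R x.2 m - hl R x'.2 m + (x.1 - x'.1))) / R))
      atTop (𝓝 0) := by
    have hlim : Tendsto (fun R : ℝ => (C + C' + C2) * R ^ (-(1 / 4 : ℝ))) atTop (𝓝 0) := by
      have := (tendsto_rpow_neg_atTop (by norm_num : (0 : ℝ) < 1 / 4)).const_mul (C + C' + C2)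
      simpa using this
    refine squeeze_zero_norm' ?_ hlim
    filter_upwards [eventually_ge_atTop (1 : ℝ), eventually_ge_atTop ((|x.1| + |x'.1|) ^ 2)] with R
      hR hR2
    have hRa : |x.1| + |x'.1| ≤ Real.sqrt R := Real.le_sqrt_of_sq_le hR2
    have hc := count_lune x x' R K hR hK hRa
    have g1 := hC R ⌈-R + K⌉ ⌊R - K⌋ hR (by
      have := Int.le_ceil (-R + K)
      linarith) (by
      have := Int.floor_le (R - K)
      linarith)
    have g2 := hC' R ⌈-R + K⌉ ⌊R - K⌋ hR (by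
      have := Int.le_ceil (-R + K)
      linarith) (by
      have := Int.floor_le (R - K)
      linarith)
    have hR0 : 0 < R := by linarith
    have hs : Real.sqrt R ≤ R ^ (3 / 4 : ℝ) := by
      rw [Real.sqrt_eq_rpow]
      exact Real.rpow_le_rpow_of_exponent_le hR (by norm_num)
    have e1 : ∀ m : ℤ, hl R x.2 m + -x.1 - (hl R x'.2 m + -x'.1) =
        hl R x.2 m - hl R x'.2 m + -(x.1 - x'.1) := fun m => by ring
    have e2 : ∀ m : ℤ, hl R x.2 m + x.1 - (hl R x'.2 m + x'.1) =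
        hl R x.2 m - hl R x'.2 m + (x.1 - x'.1) := fun m => by ring
    simp only [e1] at g1
    simp only [e2] at g2
    have e3 : ∑ m ∈ Finset.Icc ⌈-R + K⌉ ⌊R - K⌋, ((gd R x x' m).card : ℝ) =
        ∑ m ∈ Finset.Icc ⌈-R + K⌉ ⌊R - K⌋,
          max 0 ((⌊hl R x.2 m + -x.1⌋ : ℝ) - ⌊hl R x'.2 m + -x'.1⌋) +
        ∑ m ∈ Finset.Icc ⌈-R + K⌉ ⌊R - K⌋,
          max 0 ((⌊hl R x.2 m + x.1⌋ : ℝ) - ⌊hl R x'.2 m + x'.1⌋) := by
      rw [← Finset.sum_add_distrib]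
      exact Finset.sum_congr rfl fun m _ => card_gd R x x' m
    rw [e3] at hc
    have hmain : |((lune R x x').ncard : ℝ) -
        (∑ m ∈ Finset.Icc ⌈-R + K⌉ ⌊R - K⌋, max 0 (hl R x.2 m - hl R x'.2 m + -(x.1 - x'.1)) +
        ∑ m ∈ Finset.Icc ⌈-R + K⌉ ⌊R - K⌋, max 0 (hl R x.2 m - hl R x'.2 m + (x.1 - x'.1)))| ≤
        (C + C' + C2) * R ^ (3 / 4 : ℝ) := by
      have h7 : C2 * Real.sqrt R ≤ C2 * R ^ (3 / 4 : ℝ) := mul_le_mul_of_nonneg_left hs hC20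
      rw [abs_le] at hc g1 g2 ⊢
      constructor
      · linarith [hc.1, g1.1, g2.1]
      · linarith [hc.2, g1.2, g2.2]
    rw [← add_div, ← sub_div, Real.norm_eq_abs, abs_div, abs_of_pos hR0, div_le_iff₀ hR0]
    refine hmain.trans (le_of_eq ?_)
    rw [mul_assoc]
    congr 1
    nth_rewrite 3 [← Real.rpow_one R]
    rw [← Real.rpow_add hR0]
    norm_num
  have hfin := hdiff.add hsum
  rw [zero_add] at hfin
  refine hfin.congr fun R => ?_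
  ring

end Pool.Agent.U402.NG
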